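import Pool.Agent.H68.LCS.Targets

/-!
# Row A_MSL of lpq_modules: measurability of the shrinking
-/

set_option autoImplicit false

namespace Pool.Agent.H64.LCS

open Set Filter Topology
open scoped Pointwise
open Pool.Agent.H93.CP Pool.Agent.H7.LP Pool.Agent.H7.LQ Pool.Agent.H68.LCS

theorem pf_MSL : T_MSL := by
  classical
  intro Ω F _ _ B K hK n
  induction n with
  | zero =>
    intro A hA
    exact hK A hA
  | succ n ih =>
    intro A hA
    have h1 : {w | (sl B (K w) (n + 1) ∩ A).Nonempty} =
        ({w | (sl B (K w) n ∩ closure (B.U n)).Nonempty} ∩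
          {w | (sl B (K w) n ∩ (closure (B.U n) ∩ A)).Nonempty}) ∪
        ({w | (sl B (K w) n ∩ closure (B.U n)).Nonempty}ᶜ ∩
          {w | (sl B (K w) n ∩ A).Nonempty}) := by
      ext w
      by_cases h : (sl B (K w) n ∩ closure (B.U n)).Nonempty
      · have e : sl B (K w) (n + 1) = sl B (K w) n ∩ closure (B.U n) := if_pos h
        simp only [mem_ofPred_eq, mem_union, mem_inter_iff, mem_compl_iff, h, not_true_eq_false,
          false_and, or_false, true_and]
        rw [e, inter_assoc]
      · have e : sl B (K w) (n + 1) = sl B (K w) n := if_neg h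
        simp only [mem_ofPred_eq, mem_union, mem_inter_iff, mem_compl_iff, h, not_false_eq_true,
          false_and, false_or, true_and]
        rw [e]
    rw [h1]
    have hc := ih (closure (B.U n)) isClosed_closure
    exact (hc.inter (ih _ (isClosed_closure.inter hA))).union (hc.compl.inter (ih A hA))

end Pool.Agent.H64.LCS
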